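import Mathlib
import Pool.Agent.R503.SIC.Base

/-!
# Phases of Weyl–Heisenberg SIC fiducials modulo primes
-/

set_option autoImplicit false

namespace Pool.Agent.V8H71.PM

open Finset Complex Pool.Agent.R503.SIC
open scoped ComplexConjugate

variable {d : ℕ} [NeZero d]

/-- The square root of `d + 1`. -/
noncomputable def sq (d : ℕ) : ℂ := ((Real.sqrt ((d : ℝ) + 1) : ℝ) : ℂ)

theorem sq_mul_self (d : ℕ) : sq d * sq d = d + 1 := by
  unfold sq
  rw [← Complex.ofReal_mul, Real.mul_self_sqrt (by positivity)]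
  push_cast
  ring

/-- The phase `√(d+1) ω ^ (c b) ⟨ψ, X ^ (2 c) Z ^ b ψ⟩`. -/
noncomputable def ph (ψ : ZMod d → ℂ) (c b : ZMod d) : ℂ := sq d * (e (c * b) * ov ψ (2 * c) b)

/-- The products of two entries, times `d √(d+1)`. -/
noncomputable def C (ψ : ZMod d → ℂ) (i j : ZMod d) : ℂ := d * sq d * (conj (ψ i) * ψ j)

theorem C_mul (ψ : ZMod d → ℂ) (i j k l : ZMod d) : C ψ i j * C ψ k l = C ψ i l * C ψ k j := by
  unfold C
  ring

theorem C_eq (ψ : ZMod d → ℂ) (c j : ZMod d) :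
    C ψ (j + 2 * c) j = ∑ b, e (-(b * (j + c))) * ph ψ c b := by
  have h1 : ∀ b : ZMod d, e (-(b * (j + c))) * ph ψ c b =
      sq d * ∑ i, conj (ψ (i + 2 * c)) * ψ i * e (b * (i - j)) := by
    intro b
    unfold ph ov
    have h2 : ∀ i : ZMod d, e (b * (i - j)) = e (-(b * (j + c))) * e (c * b) * e (b * i) := by
      intro i
      rw [← e_add, ← e_add]
      congr 1
      ring
    have h3 : ∑ i, conj (ψ (i + 2 * c)) * ψ i * e (b * (i - j)) =
        e (-(b * (j + c))) * (e (c * b) * ∑ i, conj (ψ (i + 2 * c)) * (e (b * i) * ψ i)) := by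
      rw [Finset.mul_sum, Finset.mul_sum]
      refine Finset.sum_congr rfl fun i _ => ?_
      rw [h2 i]
      ring
    rw [h3]
    ring
  rw [Finset.sum_congr rfl fun b _ => h1 b, ← Finset.mul_sum, Finset.sum_comm]
  have h4 : ∀ i : ZMod d, ∑ b : ZMod d, conj (ψ (i + 2 * c)) * ψ i * e (b * (i - j)) =
      if i = j then conj (ψ (i + 2 * c)) * ψ i * d else 0 := by
    intro i
    rw [← Finset.mul_sum, sum_e]
    by_cases h : i = j
    · rw [if_pos h, if_pos (by rw [h, sub_self])]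
    · rw [if_neg h, if_neg (fun h' => h (sub_eq_zero.1 h')), mul_zero]
  rw [Finset.sum_congr rfl fun i _ => h4 i, Finset.sum_ite_eq' Finset.univ j, if_pos (mem_univ j)]
  unfold C
  ring

theorem ph_zero {ψ : ZMod d → ℂ} (h : Fid ψ) : ph ψ 0 0 = sq d := by
  unfold ph
  rw [mul_zero, mul_zero, e_zero, ov_zero h.1]
  ring

theorem ph_unit {ψ : ZMod d → ℂ} (h : Fid ψ) {c b : ZMod d} (hc : (2 * c, b) ≠ (0, 0)) :
    ph ψ c b * ph ψ (-c) (-b) = 1 := by
  have h1 := conj_ov ψ (2 * c) b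
  have h2 := h.2 (2 * c) b hc
  have h3 : conj (ov ψ (2 * c) b) * ov ψ (2 * c) b = 1 / ((d : ℂ) + 1) := by
    rw [conj_mul_self', h2]
    push_cast
    ring
  have h4 : e (b * (2 * c)) = e (c * b) * e (-c * -b) := by
    rw [← e_add]
    congr 1
    ring
  have hd : ((d : ℂ) + 1) ≠ 0 := by
    exact_mod_cast (Nat.succ_ne_zero d)
  unfold ph
  have h5 : (2 : ZMod d) * -c = -(2 * c) := by ring
  rw [h5]
  have h6 : sq d * (e (c * b) * ov ψ (2 * c) b) * (sq d * (e (-c * -b) * ov ψ (-(2 * c)) (-b))) =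
      (sq d * sq d) * (conj (ov ψ (2 * c) b) * ov ψ (2 * c) b) := by
    rw [h1, h4]
    ring
  rw [h6, h3, sq_mul_self]
  field_simp

section ideal

variable {R : Subring ℂ} (I : Ideal R)

/-- The complex number `z` belongs to the ideal `I` of the subring `R`. -/
def InI (z : ℂ) : Prop := ∃ w ∈ I, (w : ℂ) = z

variable {I}

theorem InI.mem {z : ℂ} (h : InI I z) : z ∈ R := by
  obtain ⟨w, -, rfl⟩ := h
  exact w.2

theorem InI.zero : InI I 0 := ⟨0, I.zero_mem, rfl⟩

theorem InI.add {z w : ℂ} (hz : InI I z) (hw : InI I w) : InI I (z + w) := by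
  obtain ⟨z, hz, rfl⟩ := hz
  obtain ⟨w, hw, rfl⟩ := hw
  exact ⟨z + w, I.add_mem hz hw, by push_cast; rfl⟩

theorem InI.neg {z : ℂ} (hz : InI I z) : InI I (-z) := by
  obtain ⟨z, hz, rfl⟩ := hz
  exact ⟨-z, I.neg_mem hz, by push_cast; rfl⟩

theorem InI.sub {z w : ℂ} (hz : InI I z) (hw : InI I w) : InI I (z - w) := by
  rw [sub_eq_add_neg]
  exact hz.add hw.neg

theorem InI.mul_left {z w : ℂ} (hz : z ∈ R) (hw : InI I w) : InI I (z * w) := by
  obtain ⟨w, hw, rfl⟩ := hw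
  exact ⟨⟨z, hz⟩ * w, I.mul_mem_left _ hw, by push_cast; rfl⟩

theorem InI.mul_right {z w : ℂ} (hz : InI I z) (hw : w ∈ R) : InI I (z * w) := by
  rw [mul_comm]
  exact InI.mul_left hw hz

theorem InI.sum {ι : Type} (s : Finset ι) (f : ι → ℂ) (h : ∀ i ∈ s, InI I (f i)) :
    InI I (∑ i ∈ s, f i) := by
  classical
  induction s using Finset.induction_on with
  | empty => rw [Finset.sum_empty]; exact InI.zero
  | insert a s ha ih =>
    rw [Finset.sum_insert ha]
    exact (h a (Finset.mem_insert_self a s)).add (ih fun i hi => h i (Finset.mem_insert_of_mem hi))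

theorem InI.prime [hI : I.IsPrime] {z w : ℂ} (hz : z ∈ R) (hw : w ∈ R) (h : InI I (z * w)) :
    InI I z ∨ InI I w := by
  obtain ⟨v, hv, h1⟩ := h
  have h2 : v = ⟨z, hz⟩ * ⟨w, hw⟩ := Subtype.ext h1
  rw [h2] at hv
  rcases hI.mem_or_mem hv with h3 | h3
  · exact Or.inl ⟨_, h3, rfl⟩
  · exact Or.inr ⟨_, h3, rfl⟩

theorem InI.one [hI : I.IsPrime] : ¬ InI I (1 : ℂ) := by
  rintro ⟨v, hv, h1⟩
  have h2 : v = 1 := Subtype.ext h1
  rw [h2] at hv
  exact hI.ne_top ((Ideal.eq_top_iff_one _).2 hv)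

end ideal

section ap

variable {R : Subring ℂ} {I : Ideal R} {ψ : ZMod d → ℂ}

/-- The phases at `X ^ (2 c) Z ^ b` are congruent for all `b`. -/
def Flat (I : Ideal R) (ψ : ZMod d → ℂ) (c : ZMod d) : Prop :=
  2 * c ≠ 0 ∧ ∀ b : ZMod d, InI I (ph ψ c b - ph ψ c 0)

theorem C_mem (hω : ∀ x : ZMod d, e x ∈ R) (hR : ∀ c b : ZMod d, 2 * c ≠ 0 → ph ψ c b ∈ R)
    {c : ZMod d} (hc : 2 * c ≠ 0) (j : ZMod d) : C ψ (j + 2 * c) j ∈ R := by
  rw [C_eq]
  exact Subring.sum_mem _ fun b _ => Subring.mul_mem _ (hω _) (hR c b hc)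

theorem C_flat (hω : ∀ x : ZMod d, e x ∈ R) {c : ZMod d} (h : Flat I ψ c) (j : ZMod d) :
    InI I (C ψ (j + 2 * c) j - ph ψ c 0 * (if j + c = 0 then (d : ℂ) else 0)) := by
  have h1 : C ψ (j + 2 * c) j - ph ψ c 0 * (if j + c = 0 then (d : ℂ) else 0) =
      ∑ b, e (-(b * (j + c))) * (ph ψ c b - ph ψ c 0) := by
    have h2 : (if j + c = 0 then (d : ℂ) else 0) = ∑ b : ZMod d, e (-(b * (j + c))) := by
      have h3 := sum_e (-(j + c))
      have h4 : ∀ b : ZMod d, e (b * -(j + c)) = e (-(b * (j + c))) := fun b => by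
        congr 1
        ring
      rw [Finset.sum_congr rfl fun b _ => h4 b] at h3
      rw [h3]
      by_cases h5 : j + c = 0
      · rw [if_pos h5, if_pos (by rw [h5, neg_zero])]
      · rw [if_neg h5, if_neg (fun h6 => h5 (neg_eq_zero.1 h6))]
    rw [C_eq, h2, Finset.mul_sum, ← Finset.sum_sub_distrib]
    refine Finset.sum_congr rfl fun b _ => ?_
    ring
  rw [h1]
  exact InI.sum _ _ fun b _ => InI.mul_left (hω _) (h.2 b)

/-- Flat lines contain no arithmetic progressions. -/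
theorem no_ap (h : Fid ψ) [hI : I.IsPrime] (hω : ∀ x : ZMod d, e x ∈ R)
    (hR : ∀ c b : ZMod d, 2 * c ≠ 0 → ph ψ c b ∈ R) (hd : ¬ InI I (d : ℂ)) {c₁ c₂ c₃ : ZMod d}
    (h1 : Flat I ψ c₁) (h2 : Flat I ψ c₂) (h3 : Flat I ψ c₃) (hap : c₁ + c₂ = 2 * c₃) :
    c₁ = c₂ := by
  have hdR : (d : ℂ) ∈ R := natCast_mem R d
  -- the diagonal products
  have hdiag : ∀ c, Flat I ψ c → C ψ c (-c) ∈ R ∧ ¬ InI I (C ψ c (-c)) := by
    intro c hc
    have e1 : C ψ (-c + 2 * c) (-c) = C ψ c (-c) := by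
      congr 1
      ring
    have e2 := C_mem hω hR hc.1 (-c)
    have e3 := C_flat hω hc (-c)
    rw [if_pos (by ring)] at e3
    rw [e1] at e2 e3
    refine ⟨e2, fun hin => ?_⟩
    have e4 : InI I (ph ψ c 0 * (d : ℂ)) := by
      have := hin.sub e3
      rwa [sub_sub_cancel] at this
    rcases e4.prime (hR c 0 hc.1) hdR with e5 | e5
    · have e6 := ph_unit h (c := c) (b := 0) (fun h0 => hc.1 (Prod.ext_iff.1 h0).1)
      have e7 : (2 : ZMod d) * -c ≠ 0 := by
        intro h0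
        apply hc.1
        have : (2 : ZMod d) * c = -(2 * -c) := by ring
        rw [this, h0, neg_zero]
      rw [neg_zero] at e6
      have e8 := e5.mul_right (hR (-c) 0 e7)
      rw [e6] at e8
      exact InI.one e8
    · exact hd e5
  by_contra hne
  obtain ⟨a1, a2⟩ := hdiag c₁ h1
  obtain ⟨b1, b2⟩ := hdiag c₂ h2
  have m1 : C ψ (-c₂ + 2 * c₃) (-c₂) = C ψ c₁ (-c₂) := by
    congr 1
    rw [← hap]
    ring
  have m2 : C ψ (-c₁ + 2 * c₃) (-c₁) = C ψ c₂ (-c₁) := by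
    congr 1
    rw [← hap]
    ring
  have m3 := C_flat hω h3 (-c₂)
  rw [m1, if_neg, mul_zero, sub_zero] at m3
  · have m4 := C_mem hω hR h3.1 (-c₁)
    rw [m2] at m4
    have m5 := m3.mul_right m4
    rw [← C_mul] at m5
    rcases m5.prime a1 b1 with m6 | m6
    · exact a2 m6
    · exact b2 m6
  · intro h0
    apply hne
    have h4 : c₃ = c₂ := by linear_combination h0
    rw [h4] at hap
    linear_combination hap

open Classical in
/-- The number of flat lines is at most the Roth number. -/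
theorem card_flat (h : Fid ψ) [hI : I.IsPrime] (hω : ∀ x : ZMod d, e x ∈ R)
    (hR : ∀ c b : ZMod d, 2 * c ≠ 0 → ph ψ c b ∈ R) (hd : ¬ InI I (d : ℂ)) :
    (univ.filter fun c : ZMod d => Flat I ψ c).card ≤ rothNumberNat d := by
  have h1 : ((univ.filter fun c : ZMod d => Flat I ψ c).image ZMod.val).card =
      (univ.filter fun c : ZMod d => Flat I ψ c).card :=
    Finset.card_image_of_injective _ (ZMod.val_injective d)
  refine ThreeAPFree.le_rothNumberNat _ ?_ ?_ h1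
  · intro a ha b hb c hc habc
    simp only [Finset.coe_image, Finset.coe_filter, Finset.mem_univ, true_and, Set.mem_image,
      Set.mem_setOf_eq] at ha hb hc
    obtain ⟨a, ha, rfl⟩ := ha
    obtain ⟨b, hb, rfl⟩ := hb
    obtain ⟨c, hc, rfl⟩ := hc
    have h2 : a + c = 2 * b := by
      have h3 : ((a.val + c.val : ℕ) : ZMod d) = ((b.val + b.val : ℕ) : ZMod d) := by rw [habc]
      push_cast at h3
      rw [ZMod.natCast_zmod_val, ZMod.natCast_zmod_val, ZMod.natCast_zmod_val] at h3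
      rw [h3]
      ring
    have h4 := no_ap h hω hR hd ha hc hb h2
    rw [← h4] at habc
    omega
  · intro x hx
    rw [Finset.mem_image] at hx
    obtain ⟨c, -, rfl⟩ := hx
    exact ZMod.val_lt c

end ap

end Pool.Agent.V8H71.PM
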