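import Mathlib
import Pool.Agent.V8H71.PM.Basic

/-!
# The partial trace of a fiducial whose phases are congruent to one
-/

set_option autoImplicit false
set_option linter.unusedSectionVars false

namespace Pool.Agent.V8H71.PM

open Finset Complex Pool.Agent.R503.SIC Matrix
open scoped ComplexConjugate

/-- Sums of characters. -/
theorem sum_char {d : ℕ} [NeZero d] {A : Type} [AddCommGroup A] [Fintype A] (g : A →+ ZMod d)
    (a : A) (h : g a ≠ 0) : ∑ y, e (g y) = 0 := by
  have h1 : ∑ y, e (g y) = e (g a) * ∑ y, e (g y) := by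
    rw [Finset.mul_sum, ← Equiv.sum_comp (Equiv.addLeft a)]
    refine Finset.sum_congr rfl fun y _ => ?_
    rw [Equiv.coe_addLeft, map_add, e_add]
  have h2 : (1 - e (g a)) * ∑ y, e (g y) = 0 := by
    rw [sub_mul, one_mul, ← h1, sub_self]
  rcases mul_eq_zero.1 h2 with h3 | h3
  · exfalso
    apply h
    apply e_inj
    rw [e_zero]
    exact (sub_eq_zero.1 h3).symm
  · exact h3

section

variable {q r : ℕ} [NeZero q] [NeZero r] [NeZero (q * r)] (hco : q.Coprime r)

/-- The element with the residues `y` and `x`. -/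
noncomputable def F (y : ZMod q) (x : ZMod r) : ZMod (q * r) := (ZMod.chineseRemainder hco).symm (y, x)

theorem F_add (y y' : ZMod q) (x x' : ZMod r) : F hco y x + F hco y' x' = F hco (y + y') (x + x') := by
  unfold F
  rw [← map_add]
  rfl

theorem F_mul (y y' : ZMod q) (x x' : ZMod r) : F hco y x * F hco y' x' = F hco (y * y') (x * x') := by
  unfold F
  rw [← map_mul]
  rfl

theorem F_neg (y : ZMod q) (x : ZMod r) : -F hco y x = F hco (-y) (-x) := by
  unfold F
  rw [← map_neg]
  rfl

theorem F_zero : F hco 0 0 = 0 := by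
  unfold F
  exact map_zero _

theorem F_inj {y y' : ZMod q} {x x' : ZMod r} (h : F hco y x = F hco y' x') : y = y' ∧ x = x' := by
  unfold F at h
  have h1 := (ZMod.chineseRemainder hco).symm.injective h
  exact ⟨congrArg Prod.fst h1, congrArg Prod.snd h1⟩

theorem F_surj (b : ZMod (q * r)) : ∃ y x, F hco y x = b :=
  ⟨(ZMod.chineseRemainder hco b).1, (ZMod.chineseRemainder hco b).2, by unfold F; simp⟩

theorem sum_q (b : ZMod q) : ∑ y : ZMod q, e (-F hco (b * y) 0) = if b = 0 then (q : ℂ) else 0 := by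
  by_cases h : b = 0
  · rw [if_pos h, h]
    simp only [zero_mul, F_zero, neg_zero, e_zero, Finset.sum_const, Finset.card_univ, ZMod.card,
      nsmul_eq_mul, mul_one]
  · rw [if_neg h]
    let g : ZMod q →+ ZMod (q * r) :=
      { toFun := fun y => -F hco (b * y) 0
        map_zero' := by rw [mul_zero, F_zero, neg_zero]
        map_add' := fun y y' => by
          rw [mul_add, ← neg_add, F_add, add_zero] }
    refine sum_char g 1 ?_
    change -F hco (b * 1) 0 ≠ 0
    rw [mul_one, F_neg, ← F_zero hco]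
    intro h1
    exact h (neg_eq_zero.1 (F_inj hco h1).1)

theorem sum_r (b : ZMod r) : ∑ z : ZMod r, e (-F hco 0 (z * b)) = if b = 0 then (r : ℂ) else 0 := by
  by_cases h : b = 0
  · rw [if_pos h, h]
    simp only [mul_zero, F_zero, neg_zero, e_zero, Finset.sum_const, Finset.card_univ, ZMod.card,
      nsmul_eq_mul, mul_one]
  · rw [if_neg h]
    let g : ZMod r →+ ZMod (q * r) :=
      { toFun := fun z => -F hco 0 (z * b)
        map_zero' := by rw [zero_mul, F_zero, neg_zero]
        map_add' := fun y y' => by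
          rw [add_mul, ← neg_add, F_add, add_zero] }
    refine sum_char g 1 ?_
    change -F hco 0 (1 * b) ≠ 0
    rw [one_mul, F_neg, ← F_zero hco]
    intro h1
    exact h (neg_eq_zero.1 (F_inj hco h1).2)

theorem sum_F (f : ZMod (q * r) → ℂ) : ∑ b, f b = ∑ y : ZMod q, ∑ z : ZMod r, f (F hco y z) := by
  rw [← Equiv.sum_comp (ZMod.chineseRemainder hco).symm.toEquiv f, Fintype.sum_prod_type]
  rfl

variable (ψ : ZMod (q * r) → ℂ)

/-- The partial trace. -/
theorem partial_trace {h : ZMod r} (hh : 2 * h = 1) (x x' : ZMod r) :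
    ∑ y : ZMod q, C ψ (F hco y x) (F hco y x') =
      q * ∑ z : ZMod r, e (-F hco 0 (z * (h * (x + x')))) * ph ψ (F hco 0 (h * (x - x'))) (F hco 0 z) := by
  have h1 : ∀ y : ZMod q, C ψ (F hco y x) (F hco y x') =
      ∑ y1 : ZMod q, ∑ z : ZMod r, e (-F hco (y1 * y) 0) * (e (-F hco 0 (z * (h * (x + x')))) *
        ph ψ (F hco 0 (h * (x - x'))) (F hco y1 z)) := by
    intro y
    have h2 : F hco y x = F hco y x' + 2 * F hco 0 (h * (x - x')) := by
      rw [two_mul, F_add, F_add]
      congr 1
      · ring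
      · linear_combination (-(x - x')) * hh
    rw [h2, C_eq, sum_F hco]
    refine Finset.sum_congr rfl fun y1 _ => Finset.sum_congr rfl fun z _ => ?_
    rw [← mul_assoc, ← e_add]
    congr 2
    rw [F_add, F_mul, F_neg, F_neg, F_neg, F_add]
    congr 1
    · ring
    · linear_combination (z * x') * hh
  rw [Finset.sum_congr rfl fun y _ => h1 y, Finset.sum_comm]
  have h3 : ∀ y1 : ZMod q, ∑ y : ZMod q, ∑ z : ZMod r, e (-F hco (y1 * y) 0) *
      (e (-F hco 0 (z * (h * (x + x')))) * ph ψ (F hco 0 (h * (x - x'))) (F hco y1 z)) =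
      if y1 = 0 then q * ∑ z : ZMod r, e (-F hco 0 (z * (h * (x + x')))) *
        ph ψ (F hco 0 (h * (x - x'))) (F hco 0 z) else 0 := by
    intro y1
    have h4 : ∑ y : ZMod q, ∑ z : ZMod r, e (-F hco (y1 * y) 0) *
      (e (-F hco 0 (z * (h * (x + x')))) * ph ψ (F hco 0 (h * (x - x'))) (F hco y1 z)) =
      (∑ y : ZMod q, e (-F hco (y1 * y) 0)) * ∑ z : ZMod r,
        (e (-F hco 0 (z * (h * (x + x')))) * ph ψ (F hco 0 (h * (x - x'))) (F hco y1 z)) := by
      rw [Finset.sum_mul_sum]
    rw [h4, sum_q]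
    by_cases h5 : y1 = 0
    · rw [if_pos h5, if_pos h5, h5]
    · rw [if_neg h5, if_neg h5, zero_mul]
  rw [Finset.sum_congr rfl fun y1 _ => h3 y1, Finset.sum_ite_eq' Finset.univ (0 : ZMod q),
    if_pos (Finset.mem_univ _)]

/-- The matrix of the partial trace. -/
noncomputable def W (h : ZMod r) : Matrix (ZMod r) (ZMod r) ℂ := fun x x' =>
  ∑ z : ZMod r, e (-F hco 0 (z * (h * (x + x')))) * ph ψ (F hco 0 (h * (x - x'))) (F hco 0 z)

theorem det_W {h : ZMod r} (hh : 2 * h = 1) (hlt : q < r) : (W hco ψ h).det = 0 := by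
  by_contra hdet
  let A : Matrix (ZMod r) (ZMod q) ℂ := fun x y => (q * r : ℕ) * sq (q * r) * conj (ψ (F hco y x))
  let B : Matrix (ZMod q) (ZMod r) ℂ := fun y x => ψ (F hco y x)
  have h1 : A * B = (q : ℂ) • W hco ψ h := by
    ext x x'
    rw [Matrix.mul_apply, Matrix.smul_apply, smul_eq_mul]
    have h2 := partial_trace hco ψ hh x x'
    unfold W
    rw [← h2]
    refine Finset.sum_congr rfl fun y _ => ?_
    simp only [A, B, C]
    ring
  have h3 : (A * B).rank ≤ q := by
    refine (Matrix.rank_mul_le_left A B).trans ?_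
    refine (Matrix.rank_le_card_width A).trans ?_
    rw [ZMod.card]
  have h4 : (A * B).rank = r := by
    have h5 : IsUnit (A * B) := by
      rw [h1, Matrix.isUnit_iff_isUnit_det, Matrix.det_smul]
      refine isUnit_iff_ne_zero.2 (mul_ne_zero (pow_ne_zero _ ?_) hdet)
      exact Nat.cast_ne_zero.2 (NeZero.ne q)
    rw [Matrix.rank_of_isUnit _ h5, ZMod.card]
  omega

end

section

variable {q r : ℕ} [NeZero q] [NeZero r] [NeZero (q * r)] (hco : q.Coprime r)
  {R : Subring ℂ} {I : Ideal R} {ψ : ZMod (q * r) → ℂ}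

include hco in
/-- If all phases are congruent to `ε` modulo `I`, and `√(d + 1)` too, then `r ≤ q`. -/
theorem le_of_phases (hψ : Fid ψ) [hI : I.IsPrime] (hω : ∀ x : ZMod (q * r), e x ∈ R) {ε : ℂ}
    (hεR : ε ∈ R) (hε : ¬ InI I ε)
    (hs : InI I (sq (q * r) - ε)) (hph : ∀ c b : ZMod (q * r), (c, b) ≠ (0, 0) →
      InI I (ph ψ c b - ε)) (hr : ¬ InI I (r : ℂ)) {h : ZMod r} (hh : 2 * h = 1) : r ≤ q := by
  by_contra hlt
  push Not at hlt
  have hdet := det_W hco ψ hh hlt
  have hall : ∀ c b : ZMod (q * r), InI I (ph ψ c b - ε) := by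
    intro c b
    by_cases h0 : (c, b) = (0, 0)
    · rw [Prod.mk.injEq] at h0
      rw [h0.1, h0.2, ph_zero hψ]
      exact hs
    · exact hph c b h0
  -- the matrix modulo `I`
  have hW : ∀ x x', InI I (W hco ψ h x x' - if x + x' = 0 then ε * (r : ℂ) else 0) := by
    intro x x'
    have h1 : (if x + x' = 0 then ε * (r : ℂ) else 0) =
        ∑ z : ZMod r, e (-F hco 0 (z * (h * (x + x')))) * ε := by
      rw [← Finset.sum_mul, sum_r]
      have h2 : h * (x + x') = 0 ↔ x + x' = 0 := by
        constructor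
        · intro h3
          have h4 : x + x' = 2 * (h * (x + x')) := by linear_combination (-(x + x')) * hh
          rw [h4, h3, mul_zero]
        · intro h3
          rw [h3, mul_zero]
      by_cases h5 : x + x' = 0
      · rw [if_pos h5, if_pos (h2.2 h5), mul_comm]
      · rw [if_neg h5, if_neg (fun h6 => h5 (h2.1 h6)), zero_mul]
    rw [h1]
    unfold W
    rw [← Finset.sum_sub_distrib]
    refine InI.sum _ _ fun z _ => ?_
    rw [← mul_sub]
    exact InI.mul_left (hω _) (hall _ _)
  have hr' : (r : ℂ) ∈ R := natCast_mem R r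
  have hmem : ∀ x x', W hco ψ h x x' ∈ R := by
    intro x x'
    have h1 := (hW x x').mem
    have h2 : (if x + x' = 0 then ε * (r : ℂ) else 0) ∈ R := by
      split_ifs
      · exact R.mul_mem hεR hr'
      · exact R.zero_mem
    have h3 := R.add_mem h1 h2
    rwa [sub_add_cancel] at h3
  let W1 : Matrix (ZMod r) (ZMod r) R := fun x x' => ⟨W hco ψ h x x', hmem x x'⟩
  have h1 : W1.det = 0 := by
    apply Subtype.ext
    have h2 : ((W1.det : R) : ℂ) = R.subtype W1.det := rfl
    rw [h2, RingHom.map_det]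
    exact hdet
  have h2 : (W1.map (Ideal.Quotient.mk I)).det = 0 := by
    have h3 := RingHom.map_det (Ideal.Quotient.mk I) W1
    rw [h1, map_zero] at h3
    exact h3.symm
  let ε1 : R := ⟨ε, hεR⟩
  have h3 : W1.map (Ideal.Quotient.mk I) =
      (Ideal.Quotient.mk I ε1 * (r : R ⧸ I)) • (Equiv.neg (ZMod r)).toPEquiv.toMatrix := by
    ext x x'
    rw [Matrix.map_apply, Matrix.smul_apply, smul_eq_mul, PEquiv.toMatrix_apply]
    have h4 : (if x' ∈ (Equiv.neg (ZMod r)).toPEquiv x then (1 : R ⧸ I) else 0) =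
        if x + x' = 0 then 1 else 0 := by
      by_cases h5 : x + x' = 0
      · rw [if_pos h5, if_pos]
        rw [Equiv.toPEquiv_apply, Option.mem_some_iff]
        change -x = x'
        linear_combination -h5
      · rw [if_neg h5, if_neg]
        rw [Equiv.toPEquiv_apply, Option.mem_some_iff]
        intro h6
        apply h5
        change -x = x' at h6
        rw [← h6]
        ring
    rw [h4]
    obtain ⟨w, hw, hw2⟩ := hW x x'
    have h6 : W1 x x' = w + if x + x' = 0 then ε1 * (r : R) else 0 := by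
      apply Subtype.ext
      change W hco ψ h x x' = _
      by_cases h5 : x + x' = 0
      · rw [if_pos h5] at hw2 ⊢
        push_cast
        rw [hw2]
        ring
      · rw [if_neg h5] at hw2 ⊢
        push_cast
        rw [hw2]
        ring
    rw [h6, map_add, Ideal.Quotient.eq_zero_iff_mem.2 hw, zero_add]
    split_ifs
    · rw [map_mul, map_natCast, mul_one]
    · rw [map_zero, mul_zero]
  rw [h3, Matrix.det_smul, Matrix.det_permutation] at h2
  rcases mul_eq_zero.1 h2 with h4 | h4
  · have h5 : Ideal.Quotient.mk I ε1 * (r : R ⧸ I) = 0 := by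
      exact (pow_eq_zero_iff (Fintype.card_ne_zero (α := ZMod r))).1 h4
    rcases mul_eq_zero.1 h5 with h6 | h6
    · exact hε ⟨ε1, Ideal.Quotient.eq_zero_iff_mem.1 h6, rfl⟩
    · apply hr
      refine ⟨(r : R), ?_, by push_cast; rfl⟩
      rw [← Ideal.Quotient.eq_zero_iff_mem, map_natCast]
      exact h6
  · have h5 : IsUnit (((Equiv.Perm.sign (Equiv.neg (ZMod r)) : ℤˣ) : ℤ) : R ⧸ I) := by
      have := (Equiv.Perm.sign (Equiv.neg (ZMod r))).isUnit.map (Int.castRingHom (R ⧸ I))
      simpa using this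
    exact h5.ne_zero h4

end

end Pool.Agent.V8H71.PM
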