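import Mathlib
import Pool.Agent.V8H71.PM.Basic

/-!
# Algebraic integers: the square root of `d + 1` modulo an odd prime divisor of `d`
-/

set_option autoImplicit false
set_option linter.unusedSectionVars false

namespace Pool.Agent.V8H71.PM

open Finset Polynomial

/-- The ring of all algebraic integers. -/
noncomputable def Zb : Subring ℂ := (integralClosure ℤ ℂ).toSubring

theorem mem_Zb {z : ℂ} : z ∈ Zb ↔ IsIntegral ℤ z := Iff.rfl

theorem aeval_conj (s : ℂ) (D : ℚ) (hs : s * s = (D : ℂ)) (P : ℚ[X]) :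
    ∃ A B : ℚ, aeval s P = (A : ℂ) + B * s ∧ aeval (-s) P = (A : ℂ) - B * s := by
  induction P using Polynomial.induction_on' with
  | add p q hp hq =>
    obtain ⟨A, B, h1, h2⟩ := hp
    obtain ⟨A', B', h3, h4⟩ := hq
    refine ⟨A + A', B + B', ?_, ?_⟩
    · rw [map_add, h1, h3]
      push_cast
      ring
    · rw [map_add, h2, h4]
      push_cast
      ring
  | monomial n a =>
    induction n with
    | zero =>
      refine ⟨a, 0, ?_, ?_⟩
      · rw [aeval_monomial]
        simp
      · rw [aeval_monomial]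
        simp
    | succ n ih =>
      obtain ⟨A, B, h1, h2⟩ := ih
      rw [aeval_monomial] at h1 h2
      refine ⟨B * D, A, ?_, ?_⟩
      · rw [aeval_monomial, pow_succ, ← mul_assoc, h1]
        push_cast
        linear_combination (B : ℂ) * hs
      · rw [aeval_monomial, pow_succ, ← mul_assoc, h2]
        push_cast
        linear_combination (B : ℂ) * hs

theorem int_of_rat {x : ℚ} (h : IsIntegral ℤ (x : ℂ)) : ∃ n : ℤ, (n : ℚ) = x := by
  have h1 : IsIntegral ℤ x := by
    rw [← isIntegral_algebraMap_iff (B := ℂ) (algebraMap ℚ ℂ).injective]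
    simpa using h
  obtain ⟨n, hn⟩ := IsIntegrallyClosed.isIntegral_iff.1 h1
  exact ⟨n, by simpa using hn⟩

/-- If `s ^ 2` is an integer and `(s - 1) / l` is integral for an odd prime number `l` then `s` is an
integer. -/
theorem int_of_integral {s : ℂ} {D : ℤ} {l : ℕ} (hl : l.Prime) (hl2 : l ≠ 2) (hs : s * s = (D : ℂ))
    (h : IsIntegral ℤ ((s - 1) / l)) : ∃ n : ℤ, s = n ∧ (l : ℤ) ∣ n - 1 := by
  have hl0 : (l : ℂ) ≠ 0 := Nat.cast_ne_zero.2 hl.ne_zero
  by_cases hr : ∃ x : ℚ, (x : ℂ) = s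
  · obtain ⟨x, hx⟩ := hr
    have h1 : IsIntegral ℤ ((((x - 1) / l : ℚ)) : ℂ) := by
      push_cast
      rw [hx]
      exact h
    obtain ⟨m, hm⟩ := int_of_rat h1
    have hlq : (l : ℚ) ≠ 0 := Nat.cast_ne_zero.2 hl.ne_zero
    have h2 : x = m * l + 1 := by
      rw [hm]
      field_simp
      ring
    refine ⟨m * l + 1, ?_, ⟨m, by ring⟩⟩
    rw [← hx, h2]
    push_cast
    ring
  · exfalso
    obtain ⟨p, hp, hp0⟩ := h
    -- the polynomial `p ((X - 1) / l)`
    let q : ℚ[X] := (p.map (Int.castRingHom ℚ)).comp (Polynomial.C ((l : ℚ)⁻¹) * (X - Polynomial.C 1))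
    have hq : ∀ z : ℂ, aeval z q = eval₂ (algebraMap ℤ ℂ) ((z - 1) / l) p := by
      intro z
      have h1 : aeval z q = aeval (aeval z (Polynomial.C ((l : ℚ)⁻¹) * (X - Polynomial.C 1) : ℚ[X]))
          (p.map (Int.castRingHom ℚ)) := by
        simp only [q]
        rw [aeval_comp]
      rw [h1, aeval_def, eval₂_map]
      have h2 : aeval z (Polynomial.C ((l : ℚ)⁻¹) * (X - Polynomial.C 1) : ℚ[X]) = (z - 1) / l := by
        rw [map_mul, aeval_C, map_sub, aeval_X, aeval_C]
        simp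
        ring
      rw [h2]
      congr 1
    have h3 : aeval s q = 0 := by rw [hq, hp0]
    obtain ⟨A, B, h4, h5⟩ := aeval_conj s (D : ℚ) (by rw [hs]; push_cast; rfl) q
    have hB : B = 0 := by
      by_contra hB
      apply hr
      refine ⟨-A / B, ?_⟩
      have hB' : (B : ℂ) ≠ 0 := by exact_mod_cast hB
      push_cast
      rw [h3] at h4
      field_simp
      linear_combination h4
    have h6 : aeval (-s) q = 0 := by
      rw [h5]
      rw [h3, hB] at h4
      rw [hB]
      simp only [Rat.cast_zero, zero_mul, add_zero, sub_zero] at h4 ⊢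
      exact h4.symm
    rw [hq] at h6
    have h7 : IsIntegral ℤ ((-s - 1) / l) := ⟨p, hp, h6⟩
    have h8 : IsIntegral ℤ ((s - 1) / l) := ⟨p, hp, hp0⟩
    have h9 : IsIntegral ℤ ((((-2 / l : ℚ)) : ℂ)) := by
      have h10 := h8.add h7
      have h11 : (s - 1) / l + (-s - 1) / l = (((-2 / l : ℚ)) : ℂ) := by
        push_cast
        field_simp
        ring
      rwa [h11] at h10
    obtain ⟨m, hm⟩ := int_of_rat h9
    have hlq : (l : ℚ) ≠ 0 := Nat.cast_ne_zero.2 hl.ne_zero
    have h12 : (m : ℚ) * l = -2 := by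
      rw [hm]
      field_simp
    have h13 : (m * l : ℤ) = -2 := by exact_mod_cast h12
    have h14 : (l : ℤ) ∣ 2 := ⟨-m, by linear_combination h13⟩
    have h15 : l ∣ 2 := by exact_mod_cast h14
    exact hl2 ((Nat.prime_dvd_prime_iff_eq hl Nat.prime_two).1 h15)

/-- An algebraic integer `s` with `s ^ 2 = 1` modulo `l`, for which a power of `s - 1` is divisible
by `l`. -/
theorem div_of_radical {s : ℂ} {d l : ℕ} (hl : l.Prime) (hl2 : l ≠ 2) (hs : s * s = (d : ℂ) + 1)
    (hld : l ∣ d) {m : ℕ} (hm : IsIntegral ℤ ((s - 1) ^ m / l)) : IsIntegral ℤ ((s - 1) / l) := by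
  have hl0 : (l : ℂ) ≠ 0 := Nat.cast_ne_zero.2 hl.ne_zero
  have hint : ∀ n : ℤ, IsIntegral ℤ (n : ℂ) := fun n => by
    simpa using isIntegral_algebraMap (R := ℤ) (A := ℂ) (x := n)
  have hsi : IsIntegral ℤ s := by
    refine IsIntegral.of_pow (n := 2) (by norm_num) ?_
    rw [pow_two, hs]
    simpa using hint ((d : ℤ) + 1)
  have hs1 : IsIntegral ℤ (s - 1) := hsi.sub isIntegral_one
  obtain ⟨d', rfl⟩ := hld
  have key : ∀ k : ℕ, IsIntegral ℤ (((s - 1) ^ (k + 1) - (-2) ^ k * (s - 1)) / l) := by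
    intro k
    induction k with
    | zero =>
      have h1 : ((s - 1) ^ (0 + 1) - (-2) ^ 0 * (s - 1)) / (l : ℂ) = 0 := by ring
      rw [h1]
      exact isIntegral_zero
    | succ k ih =>
      have h1 : ((s - 1) ^ (k + 1 + 1) - (-2) ^ (k + 1) * (s - 1)) / (l : ℂ) =
          (s - 1) * (((s - 1) ^ (k + 1) - (-2) ^ k * (s - 1)) / l) +
            (((-2) ^ k * d' : ℤ) : ℂ) := by
        have h2 : (s - 1) * (s - 1) = -2 * (s - 1) + l * d' := by
          push_cast at hs
          linear_combination hs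
        push_cast
        field_simp
        linear_combination ((-2 : ℂ) ^ k) * h2
      rw [h1]
      exact (hs1.mul ih).add (hint _)
  cases m with
  | zero =>
    exfalso
    rw [pow_zero] at hm
    have h1 : IsIntegral ℤ (((1 / l : ℚ)) : ℂ) := by
      push_cast
      exact hm
    obtain ⟨n, hn⟩ := int_of_rat h1
    have hlq : (l : ℚ) ≠ 0 := Nat.cast_ne_zero.2 hl.ne_zero
    have h2 : (n : ℚ) * l = 1 := by
      rw [hn]
      field_simp
    have h3 : (n * l : ℤ) = 1 := by exact_mod_cast h2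
    have h4 : (l : ℤ) ∣ 1 := ⟨n, by linear_combination -h3⟩
    have h5 : l ∣ 1 := by exact_mod_cast h4
    exact hl.one_lt.ne' (Nat.dvd_one.1 h5)
  | succ k =>
    have h1 : IsIntegral ℤ ((-2) ^ k * (s - 1) / (l : ℂ)) := by
      have h2 := hm.sub (key k)
      have h3 : (s - 1) ^ (k + 1) / (l : ℂ) - ((s - 1) ^ (k + 1) - (-2) ^ k * (s - 1)) / l =
          (-2) ^ k * (s - 1) / (l : ℂ) := by ring
      rwa [h3] at h2
    have hcop : IsCoprime ((-2 : ℤ) ^ k) (l : ℤ) := by
      apply IsCoprime.pow_left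
      rw [IsCoprime.neg_left_iff]
      exact_mod_cast Nat.isCoprime_iff_coprime.2
        ((Nat.coprime_primes Nat.prime_two hl).2 (Ne.symm hl2))
    obtain ⟨u, v, huv⟩ := hcop
    have h4 : (s - 1) / (l : ℂ) = (u : ℂ) * ((-2) ^ k * (s - 1) / (l : ℂ)) + (v : ℂ) * (s - 1) := by
      have h5 : (u : ℂ) * (-2) ^ k + v * l = 1 := by exact_mod_cast huv
      field_simp
      linear_combination (-(s - 1)) * h5
    rw [h4]
    exact ((hint u).mul h1).add ((hint v).mul hs1)

end Pool.Agent.V8H71.PM
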