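import Mathlib
import Pool.Agent.V8H71.PM.Gram
import Pool.Agent.V8H71.PM.Root

/-!
# The phases of a fiducial in odd dimension are not all congruent to one modulo a prime number
-/

set_option autoImplicit false
set_option linter.unusedSectionVars false

namespace Pool.Agent.V8H71.PM

open Finset Pool.Agent.R503.SIC

section

variable {d : ℕ} [NeZero d]

theorem e_int (x : ZMod d) : e x ∈ Zb := by
  rw [mem_Zb]
  have h1 : ∀ n : ℕ, e x ^ n = e ((n : ZMod d) * x) := by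
    intro n
    induction n with
    | zero => rw [pow_zero, Nat.cast_zero, zero_mul, e_zero]
    | succ n ih =>
      rw [pow_succ, ih, ← e_add]
      congr 1
      push_cast
      ring
  refine IsIntegral.of_pow (Nat.pos_of_ne_zero (NeZero.ne d)) ?_
  rw [h1, ZMod.natCast_self, zero_mul, e_zero]
  exact isIntegral_one

theorem not_int {l : ℕ} (hl : l.Prime) : ¬ IsIntegral ℤ (1 / (l : ℂ)) := by
  intro h
  have h1 : IsIntegral ℤ (((1 / l : ℚ)) : ℂ) := by
    push_cast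
    exact h
  obtain ⟨n, hn⟩ := int_of_rat h1
  have hlq : (l : ℚ) ≠ 0 := Nat.cast_ne_zero.2 hl.ne_zero
  have h2 : (n : ℚ) * l = 1 := by
    rw [hn]
    field_simp
  have h3 : (n * l : ℤ) = 1 := by exact_mod_cast h2
  have h4 : (l : ℤ) ∣ 1 := ⟨n, by linear_combination -h3⟩
  have h5 : l ∣ 1 := by exact_mod_cast h4
  exact hl.one_lt.ne' (Nat.dvd_one.1 h5)

theorem exists_prime {l : ℕ} (hl : l.Prime) : ∃ I : Ideal Zb, I.IsPrime ∧ (l : Zb) ∈ I := by
  have h1 : Ideal.span {(l : Zb)} ≠ ⊤ := by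
    rw [Ne, Ideal.span_singleton_eq_top, isUnit_iff_exists_inv]
    rintro ⟨b, hb⟩
    apply not_int hl
    have hl0 : (l : ℂ) ≠ 0 := Nat.cast_ne_zero.2 hl.ne_zero
    have h2 : (l : ℂ) * (b : ℂ) = 1 := by
      have := congrArg (fun z : Zb => (z : ℂ)) hb
      simpa using this
    have h3 : 1 / (l : ℂ) = b := by
      field_simp
      exact h2.symm
    rw [h3]
    exact b.2
  obtain ⟨I, hI, hle⟩ := Ideal.exists_le_maximal _ h1
  exact ⟨I, hI.isPrime, hle (Ideal.mem_span_singleton_self _)⟩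

theorem not_mem_of_coprime {I : Ideal Zb} (hI : I.IsPrime) {l n : ℕ} (hl : (l : Zb) ∈ I)
    (h : Nat.Coprime l n) : ¬ InI I (n : ℂ) := by
  rintro ⟨w, hw, hw2⟩
  have h1 : w = (n : Zb) := Subtype.ext (by rw [hw2]; push_cast; rfl)
  rw [h1] at hw
  have h2 : IsCoprime (l : ℤ) (n : ℤ) := Nat.isCoprime_iff_coprime.2 h
  obtain ⟨u, v, huv⟩ := h2
  apply hI.ne_top
  rw [Ideal.eq_top_iff_one]
  have h3 : (1 : Zb) = (u : Zb) * (l : Zb) + (v : Zb) * (n : Zb) := by
    exact_mod_cast congrArg (fun z : ℤ => (z : Zb)) huv.symm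
  rw [h3]
  exact I.add_mem (I.mul_mem_left _ hl) (I.mul_mem_left _ hw)

variable {ψ : ZMod d → ℂ}

/-- The phases are congruent to one modulo every prime above `l`. -/
theorem cong_of_pow {l m : ℕ} (hl : l.Prime) (hm0 : 0 < m)
    {z ε : ℂ} (hz : IsIntegral ℤ ((z - ε) ^ m / l)) {I : Ideal Zb} (hI : I.IsPrime)
    (hlI : (l : Zb) ∈ I) : InI I (z - ε) := by
  have hl0 : (l : ℂ) ≠ 0 := Nat.cast_ne_zero.2 hl.ne_zero
  have h1 : IsIntegral ℤ ((z - ε) ^ m) := by
    have h2 : (z - ε) ^ m = (l : ℂ) * ((z - ε) ^ m / l) := by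
      field_simp
    rw [h2]
    have h3 : IsIntegral ℤ (l : ℂ) := by
      simpa using isIntegral_algebraMap (R := ℤ) (A := ℂ) (x := (l : ℤ))
    exact h3.mul hz
  have h2 : IsIntegral ℤ (z - ε) := IsIntegral.of_pow hm0 h1
  refine ⟨⟨z - ε, h2⟩, ?_, rfl⟩
  apply hI.mem_of_pow_mem m
  have h3 : (⟨z - ε, h2⟩ : Zb) ^ m = (l : Zb) * ⟨(z - ε) ^ m / l, hz⟩ := by
    apply Subtype.ext
    push_cast
    field_simp
  rw [h3]
  exact I.mul_mem_right _ hlI

theorem half {d : ℕ} (hd : Odd d) : ∃ h : ZMod d, 2 * h = 1 := by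
  obtain ⟨k, hk⟩ := hd
  refine ⟨((k + 1 : ℕ) : ZMod d), ?_⟩
  have h1 : ((2 * (k + 1) : ℕ) : ZMod d) = ((d + 1 : ℕ) : ZMod d) := by
    congr 1
    omega
  push_cast at h1 ⊢
  rw [h1, ZMod.natCast_self, zero_add]

/-- The square root of `d + 1` is congruent to `ε`. -/
theorem sq_cong (hψ : Fid ψ) (hd : Odd d) (h1d : 1 < d) {R : Subring ℂ} {I : Ideal R}
    (hI : I.IsPrime) (hω : ∀ x : ZMod d, e x ∈ R) (hsi : sq d ∈ R) {ε : ℂ} (hε : ε ∈ R)
    (hdI : InI I (d : ℂ)) (hph : ∀ c b : ZMod d, (c, b) ≠ (0, 0) → InI I (ph ψ c b - ε)) :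
    InI I (sq d - ε) := by
  obtain ⟨h, hh⟩ := half hd
  have hs1 : sq d - ε ∈ R := R.sub_mem hsi hε
  have hsum : ∀ x : ZMod d, InI I (∑ b : ZMod d, e (-(b * x)) * ε) := by
    intro x
    rw [← Finset.sum_mul]
    refine InI.mul_right ?_ hε
    have h3 := sum_e (-x)
    have h4 : ∀ b : ZMod d, e (b * -x) = e (-(b * x)) := fun b => by
      congr 1
      ring
    rw [Finset.sum_congr rfl fun b _ => h4 b] at h3
    rw [h3]
    split_ifs
    · exact hdI
    · exact InI.zero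
  have hoff : ∀ i j : ZMod d, i ≠ j → InI I (C ψ i j) := by
    intro i j hij
    have h1 : i = j + 2 * (h * (i - j)) := by linear_combination (-(i - j)) * hh
    have h2 : h * (i - j) ≠ 0 := by
      intro h0
      apply hij
      rw [h1, h0, mul_zero, add_zero]
    rw [h1, C_eq]
    have h3 : ∑ b, e (-(b * (j + h * (i - j)))) * ph ψ (h * (i - j)) b =
        ∑ b, e (-(b * (j + h * (i - j)))) * (ph ψ (h * (i - j)) b - ε) +
          ∑ b, e (-(b * (j + h * (i - j)))) * ε := by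
      rw [← Finset.sum_add_distrib]
      refine Finset.sum_congr rfl fun b _ => ?_
      ring
    rw [h3]
    refine InI.add (InI.sum _ _ fun b _ => InI.mul_left (hω _) (hph _ _ ?_)) (hsum _)
    intro h0
    exact h2 (Prod.ext_iff.1 h0).1
  have hdiag : ∀ j : ZMod d, InI I (C ψ j j - (sq d - ε)) := by
    intro j
    have h1 : C ψ j j = C ψ (j + 2 * 0) j := by rw [mul_zero, add_zero]
    rw [h1, C_eq]
    have h3 : ∑ b, e (-(b * (j + 0))) * ph ψ 0 b - (sq d - ε) =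
        ∑ b ∈ univ.erase 0, e (-(b * (j + 0))) * (ph ψ 0 b - ε) +
          ∑ b, e (-(b * (j + 0))) * ε := by
      have h4 : ∑ b, e (-(b * (j + 0))) * ph ψ 0 b =
          ∑ b, e (-(b * (j + 0))) * (ph ψ 0 b - ε) + ∑ b, e (-(b * (j + 0))) * ε := by
        rw [← Finset.sum_add_distrib]
        refine Finset.sum_congr rfl fun b _ => ?_
        ring
      have h5 := Finset.add_sum_erase univ (fun b : ZMod d => e (-(b * (j + 0))) * (ph ψ 0 b - ε))
        (Finset.mem_univ 0)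
      simp only [zero_mul, neg_zero, e_zero, one_mul, ph_zero hψ] at h5
      rw [h4]
      linear_combination -h5
    rw [h3]
    refine InI.add (InI.sum _ _ fun b hb => InI.mul_left (hω _) (hph _ _ ?_)) (hsum _)
    intro h0
    exact (Finset.ne_of_mem_erase hb) (Prod.ext_iff.1 h0).2
  have hne : (0 : ZMod d) ≠ 1 := by
    have : Fact (1 < d) := ⟨h1d⟩
    exact zero_ne_one
  have hmem : ∀ j : ZMod d, C ψ j j ∈ R := by
    intro j
    have := R.add_mem (hdiag j).mem hs1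
    rwa [sub_add_cancel] at this
  have h1 : InI I (C ψ 0 0 * C ψ 1 1) := by
    rw [C_mul]
    exact (hoff 0 1 hne).mul_right (hoff 1 0 hne.symm).mem
  have h2 : InI I ((sq d - ε) * (sq d - ε)) := by
    have h3 : (sq d - ε) * (sq d - ε) = C ψ 0 0 * C ψ 1 1 - (C ψ 0 0 - (sq d - ε)) * C ψ 1 1 -
        (sq d - ε) * (C ψ 1 1 - (sq d - ε)) := by ring
    rw [h3]
    exact (h1.sub ((hdiag 0).mul_right (hmem 1))).sub (InI.mul_left hs1 (hdiag 1))
  rcases h2.prime hs1 hs1 with h3 | h3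
  · exact h3
  · exact h3

/-- If all phases are congruent modulo a prime ideal, then the residue characteristic divides `d` to a
power larger than `√d`. -/
theorem main_prime (hd : Odd d) (h5 : 5 ≤ d) (hψ : Fid ψ) {R : Subring ℂ} {I : Ideal R}
    (hI : I.IsPrime) (hω : ∀ x : ZMod d, e x ∈ R) (hph : ∀ c b : ZMod d, ph ψ c b ∈ R)
    (hcong : ∀ c b c' b' : ZMod d, (c, b) ≠ (0, 0) → (c', b') ≠ (0, 0) →
      InI I (ph ψ c b - ph ψ c' b')) :
    ∃ l a r : ℕ, l.Prime ∧ (l : R) ∈ I ∧ d = l ^ a * r ∧ ¬ l ∣ r ∧ r < l ^ a ∧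
      InI I (sq d - ph ψ 0 1) := by
  have : Fact (1 < d) := ⟨by omega⟩
  have hne : ∀ k : ℕ, 0 < k → k < d → ((k : ℕ) : ZMod d) ≠ 0 := by
    intro k hk hkd h0
    rw [ZMod.natCast_eq_zero_iff] at h0
    exact absurd (Nat.le_of_dvd hk h0) (by omega)
  -- `d` belongs to `I`
  have hdI : InI I (d : ℂ) := by
    by_contra hdI
    have hflat : ∀ c : ZMod d, 2 * c ≠ 0 → Flat I ψ c := by
      intro c hc2
      have hc0 : c ≠ 0 := by
        rintro rfl
        exact hc2 (mul_zero _)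
      exact ⟨hc2, fun b => hcong c b c 0 (fun h0 => hc0 (Prod.ext_iff.1 h0).1)
        (fun h0 => hc0 (Prod.ext_iff.1 h0).1)⟩
    have h2 : (2 : ZMod d) * 1 ≠ 0 := by
      have := hne 2 (by norm_num) (by omega)
      push_cast at this
      rwa [mul_one]
    have h4 : (2 : ZMod d) * 2 ≠ 0 := by
      have := hne 4 (by norm_num) (by omega)
      push_cast at this
      intro h0
      apply this
      linear_combination h0
    have h6 : (2 : ZMod d) * 3 ≠ 0 := by
      intro h0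
      have h7 : ((6 : ℕ) : ZMod d) = 0 := by
        push_cast
        linear_combination h0
      rw [ZMod.natCast_eq_zero_iff] at h7
      have h8 : d = 6 := by
        have := Nat.le_of_dvd (by norm_num) h7
        interval_cases d <;> omega
      rw [h8] at hd
      exact absurd hd (by decide)
    have h7 := no_ap hψ hω (fun c b _ => hph c b) hdI (hflat 1 h2) (hflat 3 h6) (hflat 2 h4)
      (by ring)
    apply h2
    linear_combination -h7
  -- the residue characteristic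
  obtain ⟨p, hp⟩ := CharP.exists (R ⧸ I)
  have hpd : p ∣ d := by
    rw [← CharP.cast_eq_zero_iff (R ⧸ I) p d]
    obtain ⟨w, hw, hw2⟩ := hdI
    have h1 : w = (d : R) := Subtype.ext (by rw [hw2]; push_cast; rfl)
    rw [h1] at hw
    have h2 := Ideal.Quotient.eq_zero_iff_mem.2 hw
    rwa [map_natCast] at h2
  have hp0 : p ≠ 0 := by
    rintro rfl
    have := Nat.eq_zero_of_zero_dvd hpd
    omega
  have hpp : p.Prime := (CharP.char_is_prime_or_zero (R ⧸ I) p).resolve_right hp0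
  have hpI : (p : R) ∈ I := by
    rw [← Ideal.Quotient.eq_zero_iff_mem, map_natCast]
    exact CharP.cast_eq_zero _ _
  obtain ⟨a, r, hr, hdr⟩ := Nat.exists_eq_pow_mul_and_not_dvd (n := d) (by omega) p hpp.ne_one
  have h01 : ((0 : ZMod d), (1 : ZMod d)) ≠ (0, 0) := fun h0 => one_ne_zero (Prod.ext_iff.1 h0).2
  have hεI : ¬ InI I (ph ψ 0 1) := by
    intro h1
    have h2 := ph_unit hψ (c := 0) (b := 1) (by
      intro h0
      exact one_ne_zero (Prod.ext_iff.1 h0).2)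
    have h3 := h1.mul_right (hph (-0) (-1))
    rw [h2] at h3
    exact InI.one h3
  have hsR : sq d ∈ R := by
    rw [← ph_zero hψ]
    exact hph 0 0
  have hsI : InI I (sq d - ph ψ 0 1) :=
    sq_cong hψ hd (by omega) hI hω hsR (hph 0 1) hdI (fun c b hcb => hcong c b 0 1 hcb h01)
  refine ⟨p, a, r, hpp, hpI, hdr, hr, ?_, hsI⟩
  have hr0 : r ≠ 0 := by
    rintro rfl
    exact hr (dvd_zero p)
  have hle : r ≤ p ^ a := by
    have : NeZero r := ⟨hr0⟩
    have : NeZero (p ^ a) := ⟨pow_ne_zero _ hpp.ne_zero⟩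
    have hco : (p ^ a).Coprime r := Nat.Coprime.pow_left _ ((Nat.Prime.coprime_iff_not_dvd hpp).2 hr)
    have hrodd : Odd r := by
      rw [hdr] at hd
      exact (Nat.odd_mul.1 hd).2
    obtain ⟨h, hh⟩ := half hrodd
    subst hdr
    refine le_of_phases hco hψ hω (hph 0 1) hεI hsI (fun c b hcb => hcong c b 0 1 hcb h01) ?_ hh
    rintro ⟨w, hw, hw2⟩
    have h1 : w = (r : R) := Subtype.ext (by rw [hw2]; push_cast; rfl)
    rw [h1] at hw
    have h2 := Ideal.Quotient.eq_zero_iff_mem.2 hw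
    rw [map_natCast, CharP.cast_eq_zero_iff (R ⧸ I) p r] at h2
    exact hr h2
  refine lt_of_le_of_ne hle ?_
  rintro rfl
  have ha : a = 0 := by
    by_contra ha
    exact hr (dvd_pow_self p ha)
  rw [ha] at hdr
  simp at hdr
  omega

end

/-- If the phases are congruent to `ε = 1` or `ε = -1` modulo all the primes above `l`, then `ε = -1`
and `d = l ^ a (l ^ a - 2)`. -/
theorem rad {d : ℕ} [NeZero d] (hd : Odd d) (h5 : 5 ≤ d) {ψ : ZMod d → ℂ} (hψ : Fid ψ) {l : ℕ}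
    (hl : l.Prime) {ε : ℤ} (hε : ε = 1 ∨ ε = -1) {m : ℕ} (hm : ∀ c b : ZMod d, (c, b) ≠ (0, 0) →
      IsIntegral ℤ ((ph ψ c b - ε) ^ m / l)) : ε = -1 ∧ ∃ a : ℕ, d = l ^ a * (l ^ a - 2) := by
  have : Fact (1 < d) := ⟨by omega⟩
  have hε2 : (ε : ℂ) * ε = 1 := by
    rcases hε with rfl | rfl <;> norm_num
  have hεZ : (ε : ℂ) ∈ Zb := intCast_mem Zb ε
  have hm0 : 0 < m := by
    rcases Nat.eq_zero_or_pos m with h0 | h0
    · exfalso
      have h1 := hm 1 0 (fun h => one_ne_zero (Prod.ext_iff.1 h).1)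
      rw [h0, pow_zero] at h1
      exact not_int hl h1
    · exact h0
  have hcong : ∀ I : Ideal Zb, I.IsPrime → (l : Zb) ∈ I → ∀ c b : ZMod d, (c, b) ≠ (0, 0) →
      InI I (ph ψ c b - ε) := fun I hI hlI c b hcb =>
    cong_of_pow hl hm0 (hm c b hcb) hI hlI
  obtain ⟨I0, hI0, hlI0⟩ := exists_prime hl
  have hsi : sq d ∈ Zb := by
    rw [mem_Zb]
    refine IsIntegral.of_pow (n := 2) (by norm_num) ?_
    rw [pow_two, sq_mul_self]
    simpa using isIntegral_algebraMap (R := ℤ) (A := ℂ) (x := (d : ℤ) + 1)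
  have hmem : ∀ c b : ZMod d, ph ψ c b ∈ Zb := by
    intro c b
    by_cases h0 : (c, b) = (0, 0)
    · rw [Prod.mk.injEq] at h0
      rw [h0.1, h0.2, ph_zero hψ]
      exact hsi
    · have := Zb.add_mem (hcong I0 hI0 hlI0 c b h0).mem hεZ
      rwa [sub_add_cancel] at this
  have h01 : ((0 : ZMod d), (1 : ZMod d)) ≠ (0, 0) := fun h0 => one_ne_zero (Prod.ext_iff.1 h0).2
  have hmain : ∀ I : Ideal Zb, I.IsPrime → (l : Zb) ∈ I → InI I (sq d - ε) ∧
      ∃ a r : ℕ, d = l ^ a * r ∧ ¬ l ∣ r ∧ r < l ^ a := by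
    intro I hI hlI
    obtain ⟨l', a, r, h1, h2, h3, h4, h6, h7⟩ := main_prime hd h5 hψ hI (fun x => e_int x) hmem
      (fun c b c' b' hcb hcb' => by
        have := (hcong I hI hlI c b hcb).sub (hcong I hI hlI c' b' hcb')
        rwa [sub_sub_sub_cancel_right] at this)
    have h8 : l' = l := by
      by_contra hne
      refine not_mem_of_coprime hI hlI ((Nat.coprime_primes hl h1).2 (Ne.symm hne)) ?_
      exact ⟨(l' : Zb), h2, by push_cast; rfl⟩
    subst h8
    refine ⟨?_, a, r, h3, h4, h6⟩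
    have := h7.add (hcong I hI hlI 0 1 h01)
    rwa [sub_add_sub_cancel] at this
  obtain ⟨-, a, r, hdr, hr, hra⟩ := hmain I0 hI0 hlI0
  have ha0 : a ≠ 0 := by
    rintro rfl
    rw [pow_zero, Nat.lt_one_iff] at hra
    rw [hra, mul_zero] at hdr
    omega
  have hld : l ∣ d := by
    rw [hdr]
    exact (dvd_pow_self l ha0).mul_right r
  have hl2 : l ≠ 2 := by
    rintro rfl
    exact (Nat.not_even_iff_odd.2 hd) (even_iff_two_dvd.2 hld)
  have hs1 : sq d - ε ∈ Zb := Zb.sub_mem hsi hεZ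
  have hrad : (⟨sq d - ε, hs1⟩ : Zb) ∈ (Ideal.span {(l : Zb)}).radical := by
    rw [Ideal.radical_eq_sInf, Submodule.mem_sInf]
    rintro I ⟨hle, hI⟩
    obtain ⟨w, hw, hw2⟩ := (hmain I hI (hle (Ideal.mem_span_singleton_self _))).1
    have : w = ⟨sq d - ε, hs1⟩ := Subtype.ext hw2
    rwa [this] at hw
  obtain ⟨m', hm'⟩ := hrad
  rw [Ideal.mem_span_singleton] at hm'
  obtain ⟨y, hy⟩ := hm'
  have hl0 : (l : ℂ) ≠ 0 := Nat.cast_ne_zero.2 hl.ne_zero
  have h1 : IsIntegral ℤ ((ε * sq d - 1) ^ m' / l) := by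
    have h2 := congrArg (fun z : Zb => (z : ℂ)) hy
    push_cast at h2
    have h3 : ((ε : ℂ) * sq d - 1) ^ m' / (l : ℂ) = (ε : ℂ) ^ m' * y := by
      have h4 : (ε : ℂ) * sq d - 1 = ε * (sq d - ε) := by linear_combination hε2
      rw [h4, mul_pow, h2]
      field_simp
    rw [h3]
    exact Zb.mul_mem (Zb.pow_mem hεZ m') y.2
  have hsq' : ((ε : ℂ) * sq d) * (ε * sq d) = d + 1 := by
    linear_combination (ε * ε : ℂ) * sq_mul_self d + ((d : ℂ) + 1) * hε2
  have h2 := div_of_radical hl hl2 hsq' hld h1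
  obtain ⟨n, hn, hln⟩ := int_of_integral (D := (d : ℤ) + 1) hl hl2
    (by rw [hsq']; push_cast; rfl) h2
  -- `n ^ 2 = d + 1`
  have hn2 : n * n = d + 1 := by
    rw [hn] at hsq'
    exact_mod_cast hsq'
  have hn0 : 0 ≤ ε * n := by
    have h3 : (Real.sqrt ((d : ℝ) + 1)) = ((ε * n : ℤ) : ℝ) := by
      have h4 : (((Real.sqrt ((d : ℝ) + 1)) : ℝ) : ℂ) = ((ε * n : ℤ) : ℂ) := by
        push_cast
        change sq d = _
        rw [← hn]
        linear_combination (-(sq d)) * hε2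
      exact_mod_cast h4
    have h4 := Real.sqrt_nonneg ((d : ℝ) + 1)
    rw [h3] at h4
    exact_mod_cast h4
  have hl_n1 : ¬ (l : ℤ) ∣ n + 1 := by
    intro h3
    have h4 : (l : ℤ) ∣ 2 := by
      have := dvd_sub h3 hln
      have h5 : n + 1 - (n - 1) = 2 := by ring
      rwa [h5] at this
    have h5 : l ∣ 2 := by exact_mod_cast h4
    exact hl2 ((Nat.prime_dvd_prime_iff_eq hl Nat.prime_two).1 h5)
  have hdz : (d : ℤ) = ((l ^ a : ℕ) : ℤ) * r := by exact_mod_cast hdr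
  have hla : ((l ^ a : ℕ) : ℤ) ∣ n - 1 := by
    have h3 : ((l ^ a : ℕ) : ℤ) ∣ (n - 1) * (n + 1) :=
      ⟨r, by linear_combination hn2 + hdz⟩
    refine IsCoprime.dvd_of_dvd_mul_right ?_ h3
    push_cast
    apply IsCoprime.pow_left
    rw [Int.isCoprime_iff_gcd_eq_one]
    rcases (Nat.coprime_or_dvd_of_prime hl (n + 1).natAbs) with h4 | h4
    · simpa [Int.gcd] using h4
    · exact absurd (Int.natCast_dvd.2 h4) hl_n1
  have hQ : (0 : ℤ) < ((l ^ a : ℕ) : ℤ) := by exact_mod_cast pow_pos hl.pos a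
  have hrQ : (r : ℤ) < ((l ^ a : ℕ) : ℤ) := by exact_mod_cast hra
  have hr0 : (0 : ℤ) ≤ (r : ℤ) := Int.natCast_nonneg _
  have h5z : (5 : ℤ) ≤ d := by exact_mod_cast h5
  rcases hε with rfl | rfl
  · exfalso
    have hn3 : 3 ≤ n := by
      by_contra h3
      have h4 : n ≤ 2 := by omega
      nlinarith
    have hle1 : ((l ^ a : ℕ) : ℤ) ≤ n - 1 := Int.le_of_dvd (by omega) hla
    have h6 : (d : ℤ) ≤ (n - 1) * (n - 1) := by
      rw [hdz]
      exact mul_le_mul hle1 (hrQ.le.trans hle1) hr0 (by omega)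
    nlinarith
  · refine ⟨rfl, a, ?_⟩
    obtain ⟨t, ht⟩ := hla
    have hn3 : n ≤ -3 := by
      by_contra h3
      have h4 : -2 ≤ n := by omega
      nlinarith
    -- `n = 1 + Q t`, `t = -1`
    set Q : ℤ := ((l ^ a : ℕ) : ℤ) with hQdef
    have ht0 : t < 0 := by
      by_contra h4
      have h4 : 0 ≤ t := by omega
      nlinarith
    have hrt : (r : ℤ) = (n + 1) * t := by
      have h6 : Q * (r : ℤ) = Q * ((n + 1) * t) := by
        rw [← hdz]
        linear_combination (-1 : ℤ) * hn2 + (n + 1) * ht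
      exact mul_left_cancel₀ hQ.ne' h6
    have ht1 : t = -1 := by
      by_contra h6
      have h7 : t ≤ -2 := by omega
      nlinarith
    have hQn : Q = 1 - n := by
      rw [ht1] at ht
      linarith
    have hr1 : (r : ℤ) = Q - 2 := by
      rw [hrt, ht1, hQn]
      ring
    have h7 : ((l ^ a - 2 : ℕ) : ℤ) = Q - 2 := by
      have h8 : 2 ≤ l ^ a := by
        have h9 : (2 : ℤ) ≤ Q := by omega
        rw [hQdef] at h9
        exact_mod_cast h9
      rw [Nat.cast_sub h8]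
      rfl
    have h8 : (d : ℤ) = ((l ^ a * (l ^ a - 2) : ℕ) : ℤ) := by
      rw [Nat.cast_mul, h7, hdz, hr1]
    exact_mod_cast h8

/-- The phases, or their negatives, are all roots of unity of prime power order. -/
theorem roots {d : ℕ} [NeZero d] (hd : Odd d) (h5 : 5 ≤ d) {ψ : ZMod d → ℂ} (hψ : Fid ψ) {l : ℕ}
    (hl : l.Prime) {ε : ℤ} (hε : ε = 1 ∨ ε = -1) (hcon : ∀ c b : ZMod d, (c, b) ≠ (0, 0) →
      ∃ k : ℕ, (ε * ph ψ c b) ^ l ^ k = 1) : ε = -1 ∧ ∃ a : ℕ, d = l ^ a * (l ^ a - 2) := by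
  have h1 : ∀ p : ZMod d × ZMod d, ∃ k : ℕ, p ≠ (0, 0) → (ε * ph ψ p.1 p.2) ^ l ^ k = 1 := by
    intro p
    by_cases hp : p = (0, 0)
    · exact ⟨0, fun h => absurd hp h⟩
    · obtain ⟨k, hk⟩ := hcon p.1 p.2 hp
      exact ⟨k, fun _ => hk⟩
  have hε2 : (ε : ℂ) * ε = 1 := by
    rcases hε with rfl | rfl <;> norm_num
  have hεZ : (ε : ℂ) ∈ Zb := intCast_mem Zb ε
  choose k hk using h1
  let K := Finset.univ.sup k
  have h2 : ∀ c b : ZMod d, (c, b) ≠ (0, 0) → (ε * ph ψ c b) ^ l ^ K = 1 := by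
    intro c b hcb
    have h3 : k (c, b) ≤ K := Finset.le_sup (Finset.mem_univ (c, b))
    have h4 := hk (c, b) hcb
    have h5 : l ^ K = l ^ k (c, b) * l ^ (K - k (c, b)) := by
      rw [← pow_add]
      congr 1
      omega
    rw [h5, pow_mul, h4, one_pow]
  refine rad hd h5 hψ hl hε (m := l ^ K) fun c b hcb => ?_
  have hz := h2 c b hcb
  have hzi : ε * ph ψ c b ∈ Zb := by
    rw [mem_Zb]
    refine IsIntegral.of_pow (pow_pos hl.pos K) ?_
    rw [hz]
    exact isIntegral_one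
  obtain ⟨r, hr⟩ := exists_add_pow_prime_pow_eq hl (⟨ε * ph ψ c b, hzi⟩ : Zb) (-1) K
  have hl0 : (l : ℂ) ≠ 0 := Nat.cast_ne_zero.2 hl.ne_zero
  have h3 := congrArg (fun z : Zb => (z : ℂ)) hr
  push_cast at h3
  rw [hz, ← sub_eq_add_neg] at h3
  have h4 : ∃ w : ℤ, (1 : ℂ) + (-1) ^ l ^ K = l * w := by
    rcases hl.eq_two_or_odd' with h5 | h5
    · rcases Nat.eq_zero_or_pos K with h6 | h6
      · refine ⟨0, ?_⟩
        rw [h6, pow_zero, pow_one]
        push_cast
        ring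
      · refine ⟨1, ?_⟩
        have h7 : Even (l ^ K) := by
          rw [h5]
          exact (Nat.even_pow.2 ⟨even_two, h6.ne'⟩)
        rw [h7.neg_one_pow, h5]
        push_cast
        ring
    · refine ⟨0, ?_⟩
      rw [(h5.pow (n := K)).neg_one_pow]
      push_cast
      ring
  obtain ⟨w, hw⟩ := h4
  have h5 : (ph ψ c b - ε) ^ l ^ K / (l : ℂ) = ε ^ l ^ K * ((w : ℂ) - ε * ph ψ c b * r) := by
    have h6 : ph ψ c b - ε = ε * (ε * ph ψ c b - 1) := by
      linear_combination (-(ph ψ c b)) * hε2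
    rw [h6, mul_pow, h3, hw]
    field_simp
    ring
  rw [h5]
  exact Zb.mul_mem (Zb.pow_mem hεZ _) (Zb.sub_mem (intCast_mem Zb w) (Zb.mul_mem hzi r.2))

end Pool.Agent.V8H71.PM
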